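import Pool.Agent.E456.Ins75

/-!
# MP_6380c3_nt: `m_n = p_n` on a set of positive density
-/

set_option autoImplicit false

namespace Pool.Agent.Results.MP_6380c3_nt.PositiveDensity

open Finset Filter

/-- `m_n = p_n`: one and the same number `q` is the least positive integer `m` with `n ∣ φ(m)` and the least
prime `p` with `p ≡ 1 (mod n)`. -/
def TotientEqPrime (n : ℕ) : Prop :=
  ∃ q : ℕ, IsLeast {m : ℕ | 0 < m ∧ n ∣ Nat.totient m} q ∧
    IsLeast {p : ℕ | p.Prime ∧ p ≡ 1 [MOD n]} q

open Classical in
/-- The set of `n` with `m_n = p_n` has positive upper density, and even positive lower logarithmic density: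
there is `c > 0` such that at least `cN` of the numbers `n ≤ N` satisfy `m_n = p_n` for infinitely many `N`, and
the sum of `1/n` over the `n ≤ N` with `m_n = p_n` is at least `c log N` for all large `N`. -/
theorem result : ∃ c : ℝ, 0 < c ∧
    (∃ᶠ N : ℕ in atTop, c * N ≤ (((Icc 1 N).filter TotientEqPrime).card : ℝ)) ∧
    (∀ᶠ N : ℕ in atTop, c * Real.log N ≤ ∑ n ∈ (Icc 1 N).filter TotientEqPrime, (1 : ℝ) / n) := by
  obtain ⟨c1, hc1, h1⟩ := Pool.Agent.E456.own_log
  obtain ⟨c2, hc2, h2⟩ := Pool.Agent.E456.own_nat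
  refine ⟨min c1 c2, lt_min hc1 hc2, ?_, ?_⟩
  · refine h2.mono fun N hN => ?_
    have : min c1 c2 * N ≤ c2 * N := by gcongr; exact min_le_right _ _
    exact this.trans hN
  · filter_upwards [h1, eventually_ge_atTop 1] with N hN h
    have hl : 0 ≤ Real.log N := Real.log_natCast_nonneg N
    have : min c1 c2 * Real.log N ≤ c1 * Real.log N := by gcongr; exact min_le_left _ _
    exact this.trans hN

end Pool.Agent.Results.MP_6380c3_nt.PositiveDensity
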